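import Pool.Agent.Work.MP_46fa68_31.m10_19_9.F
import Pool.Agent.Work.MP_46fa68_31.m10_17_7.F
import Pool.Agent.Work.MP_46fa68_76.EndH5
import Pool.Agent.Work.MP_46fa68_63.LinkEG

/-! # `m = 10` from the two marked certificates (levels 0 and 2) -/

set_option autoImplicit false

namespace Pool.EG

/-- **`m = 10`**: permutations of `19` points, `9` agreements -/
theorem holds_m10 (hK : ∀ n' t' : ℕ, 2 * t' + 3 ≤ n' → Holds n' t') : Holds 19 9 := by
  have e : (2 * (87 / 100) - 1 : ℝ) = 74 / 100 := by norm_num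
  have g0 : Gap 19 9 1 (292 / 1000) (87 / 100) :=
    Pool.JM.MK.m10_19_9.gap_1_73o250_873o1000.mono le_rfl (by norm_num) (by norm_num)
  have g2 : Gap 17 7 (74 / 100) (161 / 1000) (82 / 100) :=
    Pool.JM.MK.m10_17_7.gap_7o10_161o1000_413o500.mono (by norm_num) le_rfl (by norm_num)
  have gs : Gap 17 7 (836 / 1000) (127 / 1000) (86 / 100) :=
    Pool.JM.MK.m10_17_7.gap_209o250_127o1000_431o500.mono (by norm_num) le_rfl (by norm_num)
  exact holds_of_gaps (t := 9) (β0 := 292 / 1000) (p0 := 87 / 100) (β2 := 161 / 1000)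
    (p2 := 82 / 100) (θs := 836 / 1000) (βs := 127 / 1000) (ps := 86 / 100)
    (by constructor <;> (try unfold phi) <;> norm_num) (by norm_num) (by norm_num) g0
    (by rw [e]; exact g2) gs (yAny_top (by norm_num) (by unfold YTop; norm_num))
    (link_all 9 (by norm_num)) hK

end Pool.EG
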