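import Pool.Agent.Work.MP_46fa68_31.m7_13_6.F
import Pool.Agent.Work.MP_46fa68_31.m7_11_4.F
import Pool.Agent.Work.MP_46fa68_76.HoldsOf
import Pool.Agent.Work.MP_46fa68_63.LinkEG

/-! # `m = 7` from the two marked certificates (levels 0 and 2) -/

set_option autoImplicit false

namespace Pool.EG

/-- **`m = 7`**: permutations of `13` points, `6` agreements -/
theorem holds_m7 (hK : ∀ n' t' : ℕ, 2 * t' + 3 ≤ n' → Holds n' t') : Holds 13 6 := by
  refine holds13_of (Pool.JM.MK.m7_13_6.gap_1_41o100_41o50.mono le_rfl le_rfl (by norm_num))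
    (Pool.JM.MK.m7_11_4.gap_16o25_283o1000_33o50.mono (by norm_num) le_rfl (by norm_num))
    (Pool.JM.MK.m7_11_4.gap_741o1000_1o4_33o50.mono le_rfl (by norm_num) (by norm_num))
    (link_all 6 (by norm_num)) hK

end Pool.EG
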