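import Pool.Agent.Work.MP_46fa68_31.m8_15_7.F
import Pool.Agent.Work.MP_46fa68_31.m8_13_5.F
import Pool.Agent.Work.MP_46fa68_76.EndH5
import Pool.Agent.Work.MP_46fa68_63.LinkEG

/-! # `m = 8` from the two marked certificates (levels 0 and 2) -/

set_option autoImplicit false

namespace Pool.EG

/-- **`m = 8`**: permutations of `15` points, `7` agreements -/
theorem holds_m8 (hK : ∀ n' t' : ℕ, 2 * t' + 3 ≤ n' → Holds n' t') : Holds 15 7 := by
  have e : (2 * (84 / 100) - 1 : ℝ) = 68 / 100 := by norm_num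
  have g0 : Gap 15 7 1 (39 / 100) (84 / 100) :=
    Pool.JM.MK.m8_15_7.gap_1_39o100_21o25.mono le_rfl le_rfl (by norm_num)
  have g2 : Gap 13 5 (68 / 100) (22 / 100) (77 / 100) :=
    Pool.JM.MK.m8_13_5.gap_169o250_11o50_389o500.mono (by norm_num) (by norm_num) (by norm_num)
  have gs : Gap 13 5 (77 / 100) (181 / 1000) (81 / 100) :=
    Pool.JM.MK.m8_13_5.gap_77o100_181o1000_817o1000.mono le_rfl le_rfl (by norm_num)
  exact holds_of_gaps (t := 7) (β0 := 39 / 100) (p0 := 84 / 100) (β2 := 22 / 100)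
    (p2 := 77 / 100) (θs := 77 / 100) (βs := 181 / 1000) (ps := 81 / 100)
    (by constructor <;> (try unfold phi) <;> norm_num) (by norm_num) (by norm_num) g0
    (by rw [e]; exact g2) gs (yAny_top (by norm_num) (by unfold YTop; norm_num))
    (link_all 7 (by norm_num)) hK

end Pool.EG
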