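import Pool.Agent.Work.MP_46fa68_31.m9_17_8.F
import Pool.Agent.Work.MP_46fa68_31.m9_15_6.F
import Pool.Agent.Work.MP_46fa68_76.EndH5
import Pool.Agent.Work.MP_46fa68_63.LinkEG

/-! # `m = 9` from the two marked certificates (levels 0 and 2) -/

set_option autoImplicit false

namespace Pool.EG

/-- **`m = 9`**: permutations of `17` points, `8` agreements -/
theorem holds_m9 (hK : ∀ n' t' : ℕ, 2 * t' + 3 ≤ n' → Holds n' t') : Holds 17 8 := by
  have e : (2 * (85 / 100) - 1 : ℝ) = 70 / 100 := by norm_num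
  have g0 : Gap 17 8 1 (349 / 1000) (85 / 100) :=
    Pool.JM.MK.m9_17_8.gap_1_349o1000_107o125.mono le_rfl le_rfl (by norm_num)
  have g2 : Gap 15 6 (70 / 100) (196 / 1000) (79 / 100) :=
    Pool.JM.MK.m9_15_6.gap_671o1000_49o250_199o250.mono (by norm_num) (by norm_num) (by norm_num)
  have gs : Gap 15 6 (802 / 1000) (151 / 1000) (84 / 100) :=
    Pool.JM.MK.m9_15_6.gap_401o500_151o1000_421o500.mono (by norm_num) le_rfl (by norm_num)
  exact holds_of_gaps (t := 8) (β0 := 349 / 1000) (p0 := 85 / 100) (β2 := 196 / 1000)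
    (p2 := 79 / 100) (θs := 802 / 1000) (βs := 151 / 1000) (ps := 84 / 100)
    (by constructor <;> (try unfold phi) <;> norm_num) (by norm_num) (by norm_num) g0
    (by rw [e]; exact g2) gs (yAny_top (by norm_num) (by unfold YTop; norm_num))
    (link_all 8 (by norm_num)) hK

end Pool.EG
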