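import Pool.Agent.Work.MP_46fa68_80.MainU
import Pool.Agent.Work.MP_46fa68_67.CrossU

/-!
# MP_46fa68_co: `Holds (2 t + 1) t` for all `t ≥ 26` (helper27, on the work of helper6, 14, 23, 28, 35, 36, 38,
47, 67, 74, 80, 82, 86 and others)
-/

set_option autoImplicit false

namespace Pool.EG

/-- **all large `m`**, `m = t + 1 ≥ 27`, from the range `n ≥ 2 t + 3` -/
theorem fin_large_of (hK : ∀ n' t' : ℕ, 2 * t' + 3 ≤ n' → Holds n' t') (t : ℕ) (ht : 26 ≤ t) :
    Holds (2 * t + 1) t :=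
  Pool.EGL.holds_u ht (Pool.NW.UT.main_u t ht) (Pool.NW.RV.cross_u t ht) (Pool.NW.RV.crude_u t ht) hK

end Pool.EG
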